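import Mathlib
import Pool.Agent.W484.TB.Pair

/-!
# The products of almost all abelian varieties with any variety of small Frobenius rank

The Künneth decomposition, and the semisimplicity of the eigenvalues which are powers of `Q`.
-/

set_option autoImplicit false

namespace Pool.Agent.TH44.SS

open Polynomial TensorProduct Module Pool.Agent.W484.AA Pool.Agent.W484.TB
  Pool.Agent.W521.Count Pool.Agent.W521.Descent

/-- The cohomology of degree `m` of the product `A × U`, by the formula of Künneth: `V` is the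
first cohomology of the abelian variety `A`, whose cohomology of degree `n` is `⋀ ^ n V`, and
`H m` is the cohomology (with or without compact supports) of degree `m` of `U`. -/
def Total (V : Type) [AddCommGroup V] [Module ℂ V] (H : ℕ → Type) [∀ m, AddCommGroup (H m)]
    [∀ m, Module ℂ (H m)] (m : ℕ) : Type :=
  ∀ n : Fin (m + 1), (⋀[ℂ]^(n : ℕ) V) ⊗[ℂ] H (m - n)

variable {V : Type} [AddCommGroup V] [Module ℂ V] {H : ℕ → Type} [∀ m, AddCommGroup (H m)]
  [∀ m, Module ℂ (H m)]

noncomputable instance (m : ℕ) : AddCommGroup (Total V H m) :=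
  inferInstanceAs (AddCommGroup (∀ n : Fin (m + 1), (⋀[ℂ]^(n : ℕ) V) ⊗[ℂ] H (m - n)))

noncomputable instance (m : ℕ) : Module ℂ (Total V H m) :=
  inferInstanceAs (Module ℂ (∀ n : Fin (m + 1), (⋀[ℂ]^(n : ℕ) V) ⊗[ℂ] H (m - n)))

/-- The component of index `n`, in `⋀ ^ n V ⊗ H (m - n)`. -/
noncomputable def comp (m : ℕ) (n : Fin (m + 1)) :
    Total V H m →ₗ[ℂ] (⋀[ℂ]^(n : ℕ) V) ⊗[ℂ] H (m - n) :=
  LinearMap.proj (R := ℂ) (φ := fun n : Fin (m + 1) => (⋀[ℂ]^(n : ℕ) V) ⊗[ℂ] H (m - n)) n

/-- The Frobenius endomorphism of the cohomology of degree `m` of `A × U`. -/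
noncomputable def total (F : V →ₗ[ℂ] V) (G : ∀ m, H m →ₗ[ℂ] H m) (m : ℕ) :
    Total V H m →ₗ[ℂ] Total V H m :=
  LinearMap.pi (R := ℂ) (φ := fun n : Fin (m + 1) => (⋀[ℂ]^(n : ℕ) V) ⊗[ℂ] H (m - n)) fun n =>
    TensorProduct.map (exteriorPower.map (n : ℕ) F) (G (m - n)) ∘ₗ comp m n

theorem comp_total (F : V →ₗ[ℂ] V) (G : ∀ m, H m →ₗ[ℂ] H m) (m : ℕ) (t : Total V H m)
    (n : Fin (m + 1)) : comp m n (total F G m t) =
      TensorProduct.map (exteriorPower.map (n : ℕ) F) (G (m - n)) (comp m n t) := rfl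

theorem ext_comp {m : ℕ} {t u : Total V H m} (h : ∀ n, comp m n t = comp m n u) : t = u :=
  funext h

theorem exists_comp (m : ℕ) (n : Fin (m + 1)) (x : (⋀[ℂ]^(n : ℕ) V) ⊗[ℂ] H (m - n)) :
    ∃ t : Total V H m, comp m n t = x ∧ ∀ j, j ≠ n → comp m j t = 0 := by
  classical
  exact ⟨fun j => if h : j = n then h ▸ x else 0, dif_pos rfl, fun j hj => dif_neg hj⟩

theorem zero_aux {K : Type} [AddCommGroup K] [Module ℂ K] (T : K →ₗ[ℂ] K) (μ : ℂ) :
    T (T 0 - μ • 0) = μ • (T 0 - μ • 0) := by simp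

theorem comp_one (F : V →ₗ[ℂ] V) (G : ∀ m, H m →ₗ[ℂ] H m) (m : ℕ) (μ : ℂ) (t : Total V H m)
    (n : Fin (m + 1)) : comp m n (total F G m (total F G m t - μ • t)) =
      TensorProduct.map (exteriorPower.map (n : ℕ) F) (G (m - n))
        (TensorProduct.map (exteriorPower.map (n : ℕ) F) (G (m - n)) (comp m n t) -
          μ • comp m n t) := by
  rw [comp_total, map_sub, comp_total, map_smul]

theorem comp_two (F : V →ₗ[ℂ] V) (G : ∀ m, H m →ₗ[ℂ] H m) (m : ℕ) (μ : ℂ) (t : Total V H m)
    (n : Fin (m + 1)) : comp m n (μ • (total F G m t - μ • t)) =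
      μ • (TensorProduct.map (exteriorPower.map (n : ℕ) F) (G (m - n)) (comp m n t) -
          μ • comp m n t) := by
  rw [map_smul, map_sub, comp_total, map_smul]

theorem semisimpleAt_total (F : V →ₗ[ℂ] V) (G : ∀ m, H m →ₗ[ℂ] H m) (m : ℕ) (μ : ℂ) :
    SemisimpleAt (total F G m) μ ↔ ∀ n : Fin (m + 1), SemisimpleAt
      (M := (⋀[ℂ]^(n : ℕ) V) ⊗[ℂ] H (m - n))
      (TensorProduct.map (exteriorPower.map (n : ℕ) F) (G (m - n))) μ := by
  constructor
  · intro h n x hx
    obtain ⟨t, ht, ht0⟩ := exists_comp m n x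
    have h1 := h t (by
      apply ext_comp
      intro j
      rw [comp_one, comp_two]
      by_cases hj : j = n
      · subst hj
        rw [ht]
        exact hx
      · rw [ht0 j hj]
        exact zero_aux (K := (⋀[ℂ]^(j : ℕ) V) ⊗[ℂ] H (m - j))
          (TensorProduct.map (exteriorPower.map (j : ℕ) F) (G (m - j))) μ)
    have h2 := congrArg (comp m n) h1
    rw [comp_total, map_smul, ht] at h2
    exact h2
  · intro h x hx
    apply ext_comp
    intro n
    rw [comp_total, map_smul]
    refine h n (comp m n x) ?_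
    have h1 := congrArg (comp m n) hx
    rw [comp_one, comp_two] at h1
    exact h1

theorem semisimpleAt_zero (F : V →ₗ[ℂ] V) {K : Type} [AddCommGroup K] [Module ℂ K]
    (G : K →ₗ[ℂ] K) (μ : ℂ)
    (h : SemisimpleAt (M := (⋀[ℂ]^0 V) ⊗[ℂ] K)
      (TensorProduct.map (exteriorPower.map 0 F) G) μ) : SemisimpleAt G μ := by
  intro x hx
  let w : ⋀[ℂ]^0 V := (exteriorPower.zeroEquiv (R := ℂ) (M := V)).symm 1
  have hw : ∀ w : ⋀[ℂ]^0 V, exteriorPower.map 0 F w = w := by
    intro w
    have h1 : exteriorPower.map 0 F = LinearMap.id := by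
      refine exteriorPower.linearMap_ext ?_
      ext m
      simp only [LinearMap.compAlternatingMap_apply, exteriorPower.map_apply_ιMulti,
        LinearMap.id_apply]
      congr 2
      exact Subsingleton.elim _ _
    rw [h1, LinearMap.id_apply]
  have hinj : ∀ y z : K, w ⊗ₜ[ℂ] y = w ⊗ₜ[ℂ] z → y = z := by
    intro y z hyz
    have h2 := congrArg ((TensorProduct.lid ℂ K).toLinearMap ∘ₗ
      TensorProduct.map (exteriorPower.zeroEquiv (R := ℂ) (M := V)).toLinearMap
        LinearMap.id) hyz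
    simpa [w] using h2
  have h3 := h (w ⊗ₜ x) (by
    rw [TensorProduct.map_tmul, hw, ← TensorProduct.tmul_smul, ← TensorProduct.tmul_sub,
      TensorProduct.map_tmul, hw, hx, TensorProduct.tmul_smul])
  rw [TensorProduct.map_tmul, hw, ← TensorProduct.tmul_smul] at h3
  exact hinj _ _ h3

/-- `F` is diagonalizable and its eigenvalues are roots of the polynomials `f i`: `V` is the first
cohomology of an abelian variety over the field with `q` elements, isogenous to a product of powers
of abelian varieties with characteristic polynomials `f i`. -/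
def IsFrob {I : Type} (f : I → ℤ[X]) (F : V →ₗ[ℂ] V) : Prop :=
  Submodule.span ℂ {v : V | ∃ i, ∃ z : ℂ, aeval z (f i) = 0 ∧ F v = z • v} = ⊤

/-- For all `i` the eigenvalue `Q ^ i` of Frobenius on the cohomology of degree `2 i` is
semisimple. -/
def SemiTate (G : ∀ m, H m →ₗ[ℂ] H m) (Q : ℂ) : Prop :=
  ∀ i : ℕ, SemisimpleAt (G (2 * i)) (Q ^ i)

/-- Let `A` be an abelian variety over the field with `Q = q ^ s` elements, isogenous to a product
of powers of abelian varieties coming from the field with `q` elements, whose characteristic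
polynomials of Frobenius are the `f i`, and let `U` be any variety over the field with `Q` elements,
the eigenvalues of whose Frobenius endomorphism have rank at most `r` over the number field `E` in
each degree. Then: for all `i` the eigenvalue `Q ^ i` of Frobenius on the cohomology of degree
`2 i` of `A × U` is semisimple, if and only if this is true for `U`. -/
def SemisimpleIff {I : Type} (E : IntermediateField ℚ ℂ) (q r : ℕ) (f : I → ℤ[X]) : Prop :=
  ∀ (V : Type) [AddCommGroup V] [Module ℂ V] [FiniteDimensional ℂ V] (F : V →ₗ[ℂ] V),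
    IsFrob f F → ∀ s : ℕ, 0 < s →
    ∀ (H : ℕ → Type) [∀ m, AddCommGroup (H m)] [∀ m, Module ℂ (H m)]
      [∀ m, FiniteDimensional ℂ (H m)] (G : ∀ m, H m →ₗ[ℂ] H m),
      (∀ m, SmallRankOver E r (G m)) → 
      (SemiTate (total (F ^ s) G) ((q : ℂ) ^ s) ↔ SemiTate G ((q : ℂ) ^ s))

theorem semisimpleIff_of {I : Type} (E : IntermediateField ℚ ℂ) (q r : ℕ) (f : I → ℤ[X])
    (h : SemisimpleForRankOver E q r f) : SemisimpleIff E q r f := by
  intro V _ _ _ F hF s hs H _ _ _ G hG
  constructor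
  · intro h1 i
    have h2 := (semisimpleAt_total (F ^ s) G (2 * i) _).1 (h1 i) ⟨0, by omega⟩
    exact semisimpleAt_zero (F ^ s) (G (2 * i)) _ h2
  · intro h1 i
    rw [semisimpleAt_total]
    rintro ⟨n, hn⟩
    have h3 := h V F hF s hs (H (2 * i - n)) (G (2 * i - n)) (hG _) n (i : ℤ) (by
      rintro k rfl
      have hk : k ≤ i := by omega
      have h4 := h1 (i - k)
      have h5 : ∀ m, m = 2 * (i - k) → SemisimpleAt (G m) (((q : ℂ) ^ s) ^ (i - k)) := by
        rintro _ rfl
        exact h4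
      have h6 : ((q : ℂ) ^ s) ^ ((i : ℤ) - k) = ((q : ℂ) ^ s) ^ (i - k) := by
        rw [← Nat.cast_sub hk, zpow_natCast]
      rw [h6]
      exact h5 _ (by omega))
    rw [zpow_natCast] at h3
    exact h3

/-- **The count.** -/
theorem count_iff {I : Type} [Fintype I] (g : I → ℕ) (r : ℕ) (hr : ∀ i, r < g i)
    (E : IntermediateField ℚ ℂ) [FiniteDimensional ℚ E] :
    ∃ C : ℝ, ∀ q : ℕ, IsPrimePow q → ∀ S : I → Set ℤ[X],
      (∀ i, ordinaryWeilPolys q (g i) ⊆ S i ∧ S i ⊆ weilPolys q (g i)) →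
      (∀ i, (S i).Finite ∧ (S i).Nonempty) ∧
      ({f : I → ℤ[X] | (∀ i, f i ∈ S i) ∧ ¬ SemisimpleIff E q r f}.ncard : ℝ) ≤
        C * (Real.log q * (q : ℝ) ^ (-(1 / 6) : ℝ)) * ∏ i, ((S i).ncard : ℝ) :=
  count_of_goodU (splitPrimes E) (dense_splitPrimes E) g
    (fun i => (Nat.zero_le r).trans_lt (hr i)) (fun q f => SemisimpleIff E q r f)
    fun _ hq x hx => semisimpleIff_of E _ r _
      (semisimpleForRankOver_of_good g E hq.pos.ne' r hr x hx)

end Pool.Agent.TH44.SS
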