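import Mathlib
import Pool.Agent.TH44.SS.Times

/-!
# Tate classes and semisimplicity over all finite extensions
-/

set_option autoImplicit false

namespace Pool.Agent.TH44.SS

open Polynomial TensorProduct Module Pool.Agent.W484.AA Pool.Agent.W484.TB Pool.Agent.W484.BB
  Pool.Agent.W521.Count Pool.Agent.W521.Descent Pool.Agent.W521.Bad

theorem conj_pow {ρ y : ℂ} {N : ℕ} (χ : ℚ[X]) (hχ : χ ≠ 0) (hρ : aeval ρ χ = 0)
    (hy : aeval y (minpoly ℚ (ρ ^ N)) = 0) : ∃ ρ₁ : ℂ, aeval ρ₁ χ = 0 ∧ ρ₁ ^ N = y := by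
  have hρa : IsAlgebraic ℚ ρ := ⟨χ, hχ, hρ⟩
  have hρNa : IsAlgebraic ℚ (ρ ^ N) := hρa.pow N
  have hya : IsAlgebraic ℚ y := ⟨_, minpoly.ne_zero hρNa.isIntegral, hy⟩
  have hρm : ρ ∈ algebraicClosure ℚ ℂ := mem_algebraicClosure_iff.2 hρa
  have hym : y ∈ algebraicClosure ℚ ℂ := mem_algebraicClosure_iff.2 hya
  let L := algebraicClosure ℚ ℂ
  let ρ' : L := ⟨ρ, hρm⟩
  let y' : L := ⟨y, hym⟩
  have halg : Algebra.IsAlgebraic ℚ L := algebraicClosure.isAlgebraic ℚ ℂ
  have hclos : IsAlgClosure ℚ L := algebraicClosure.isAlgClosure ℚ ℂ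
  have hnorm : Normal ℚ L := IsAlgClosure.normal ℚ L
  have h1 : aeval y' (minpoly ℚ (ρ' ^ N)) = 0 := by
    apply (algebraMap L ℂ).injective
    rw [← Polynomial.aeval_algebraMap_apply, map_zero]
    have h2 : minpoly ℚ (ρ' ^ N) = minpoly ℚ (ρ ^ N) := by
      rw [← minpoly.algebraMap_eq (B := L) (B' := ℂ) (algebraMap L ℂ).injective (ρ' ^ N), map_pow]
      rfl
    rw [h2]
    exact hy
  obtain ⟨σ, hσ⟩ := minpoly.exists_algEquiv_of_root' (K := ℚ) (L := L)
    (Algebra.IsAlgebraic.isAlgebraic (ρ' ^ N)) h1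
  refine ⟨(σ ρ' : L), ?_, ?_⟩
  · have h3 : aeval (σ ρ') χ = 0 := by
      rw [Polynomial.aeval_algHom_apply σ ρ' χ]
      have h4 : aeval ρ' χ = 0 := by
        apply (algebraMap L ℂ).injective
        rw [← Polynomial.aeval_algebraMap_apply, map_zero]
        exact hρ
      rw [h4, map_zero]
    have h5 := congrArg (algebraMap L ℂ) h3
    rw [← Polynomial.aeval_algebraMap_apply, map_zero] at h5
    exact h5
  · rw [map_pow] at hσ
    exact congrArg (algebraMap L ℂ) hσ

theorem smallRankOver_pow {K : Type} [AddCommGroup K] [Module ℂ K] [FiniteDimensional ℂ K]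
    {E : IntermediateField ℚ ℂ} {r : ℕ} (G : K →ₗ[ℂ] K) (h : SmallRankOver E r G) (N : ℕ)
    (hN : 0 < N) : SmallRankOver E r (G ^ N) := by
  classical
  obtain ⟨χ, hχ, he, u, hu0, hu⟩ := h
  let R : Finset ℂ := (χ.map (algebraMap ℚ ℂ)).roots.toFinset
  have hR : ∀ ρ : ℂ, ρ ∈ R ↔ aeval ρ χ = 0 := by
    intro ρ
    have h0 : χ.map (algebraMap ℚ ℂ) ≠ 0 :=
      (Polynomial.map_ne_zero_iff (algebraMap ℚ ℂ).injective).2 hχ
    rw [Multiset.mem_toFinset, mem_roots h0, IsRoot.def, eval_map, aeval_def]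
  have halg : ∀ ρ ∈ R, IsAlgebraic ℚ (ρ ^ N) := fun ρ hρ =>
    IsAlgebraic.pow ⟨χ, hχ, (hR ρ).1 hρ⟩ N
  refine ⟨∏ ρ ∈ R, minpoly ℚ (ρ ^ N), ?_, ?_, u, hu0, ?_⟩
  · exact Finset.prod_ne_zero_iff.2 fun ρ hρ => minpoly.ne_zero (halg ρ hρ).isIntegral
  · intro μ hμ
    have h1 : μ ∈ spectrum ℂ (G ^ N) := Module.End.hasEigenvalue_iff_mem_spectrum.1 hμ
    have h2 : μ ∈ (fun x => x ^ N) '' spectrum ℂ G := by
      have h3 := spectrum.map_pow_of_pos (𝕜 := ℂ) (G : Module.End ℂ K) hN
      rw [h3] at h1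
      exact h1
    obtain ⟨ρ, hρ, rfl⟩ := h2
    have h4 : aeval ρ χ = 0 := he ρ (Module.End.hasEigenvalue_iff_mem_spectrum.2 hρ)
    rw [map_prod]
    exact Finset.prod_eq_zero ((hR ρ).2 h4) (minpoly.aeval ℚ (ρ ^ N))
  · intro y hy
    rw [Set.mem_ofPred_eq, map_prod, Finset.prod_eq_zero_iff] at hy
    obtain ⟨ρ, hρ, hy⟩ := hy
    obtain ⟨ρ₁, h1, rfl⟩ := conj_pow χ hχ ((hR ρ).1 hρ) hy
    obtain ⟨M, e, m, hM, heE, he0, h5⟩ := hu ρ₁ h1
    refine ⟨M, e ^ N, fun j => m j * N, hM, pow_mem heE N, pow_ne_zero _ he0, ?_⟩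
    rw [← pow_mul, mul_comm, pow_mul, h5, mul_pow, ← Finset.prod_pow]
    congr 1
    refine Finset.prod_congr rfl fun j _ => ?_
    rw [zpow_mul, zpow_natCast]

variable {V : Type} [AddCommGroup V] [Module ℂ V] {H : ℕ → Type} [∀ m, AddCommGroup (H m)]
  [∀ m, Module ℂ (H m)]

/-- The generalized Tate classes: the elements `x` of the generalized eigenspace for the
eigenvalue `Q ^ (c N)` of the `N`-th power of the Frobenius endomorphism `T`, that is, of the
Frobenius endomorphism of the extension of degree `N`, for some `N > 0`. -/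
def IsGenTate {M : Type*} [AddCommGroup M] [Module ℂ M] (T : M →ₗ[ℂ] M) (Q : ℂ) (c : ℕ) (x : M) :
    Prop :=
  ∃ N : ℕ, 0 < N ∧ ∃ j : ℕ, ((T ^ N - (Q ^ c) ^ N • (1 : M →ₗ[ℂ] M)) ^ j) x = 0


theorem semisimple_iter {M : Type*} [AddCommGroup M] [Module ℂ M] {S : M →ₗ[ℂ] M}
    (h : ∀ x, S (S x) = 0 → S x = 0) (j : ℕ) (x : M) (hx : (S ^ j) x = 0) (hj : 0 < j) :
    S x = 0 := by
  induction j generalizing x with
  | zero => exact absurd hj (lt_irrefl 0)
  | succ j ih =>
    rcases Nat.eq_zero_or_pos j with rfl | hj'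
    · simpa using hx
    · rw [pow_succ, Module.End.mul_apply] at hx
      exact h x (ih (S x) hx hj')

/-- If `x` is a generalized eigenvector of order two of `T` for `μ` and some power of `T` acts on
`x` as a power of `μ`, then `x` is an eigenvector. -/
theorem eigen_of_pow {M : Type*} [AddCommGroup M] [Module ℂ M] (T : M →ₗ[ℂ] M) {μ : ℂ}
    (hμ : μ ≠ 0) (x : M) (h2 : T (T x - μ • x) = μ • (T x - μ • x)) {k : ℕ} (hk : 0 < k)
    (h : (T ^ k) x = μ ^ k • x) : T x = μ • x := by
  have h3 : ∀ k : ℕ, (T ^ k) x = μ ^ k • x + ((k : ℂ) * μ ^ (k - 1)) • (T x - μ • x) := by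
    intro k
    induction k with
    | zero => simp
    | succ k ih =>
      rw [pow_succ', Module.End.mul_apply, ih, map_add, map_smul, map_smul, h2]
      rcases Nat.eq_zero_or_pos k with rfl | hk
      · simp
      · have h4 : μ ^ k = μ ^ (k - 1) * μ := by
          rw [← pow_succ, Nat.sub_add_cancel hk]
        have h5 : T x = (T x - μ • x) + μ • x := by abel
        set w := T x - μ • x with hw
        rw [h5, Nat.add_sub_cancel, pow_succ, h4]
        push_cast
        module
  have h6 := h3 k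
  rw [h] at h6
  have h7 : ((k : ℂ) * μ ^ (k - 1)) • (T x - μ • x) = 0 := by
    have := h6.symm
    rwa [add_eq_left] at this
  rcases smul_eq_zero.1 h7 with h8 | h8
  · exact absurd h8 (mul_ne_zero (Nat.cast_ne_zero.2 hk.ne') (pow_ne_zero _ hμ))
  · exact sub_eq_zero.1 h8

theorem pow_smul_iter {M : Type*} [AddCommGroup M] [Module ℂ M] (T : M →ₗ[ℂ] M) {μ : ℂ} (x : M)
    (h : T x = μ • x) (l : ℕ) : (T ^ l) x = μ ^ l • x := by
  induction l with
  | zero => simp
  | succ l ih => rw [pow_succ, Module.End.mul_apply, h, map_smul, ih, smul_smul, pow_succ, mul_comm]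

/-- Components of generalized eigenvectors. -/
theorem eigen_component {M M' : Type} [AddCommGroup M] [Module ℂ M] [AddCommGroup M']
    [Module ℂ M'] (T : M →ₗ[ℂ] M) (T' : M' →ₗ[ℂ] M') (p : M →ₗ[ℂ] M')
    (h : ∀ t, p (T t) = T' (p t)) (μ : ℂ) (N j : ℕ) (t : M)
    (ht : ((T ^ N - μ • (1 : M →ₗ[ℂ] M)) ^ j) t = 0) (hss : SemisimpleAt (T' ^ N) μ) :
    (T' ^ N) (p t) = μ • p t := by
  have h1 : ∀ (N : ℕ) t, p ((T ^ N) t) = (T' ^ N) (p t) := by
    intro N
    induction N with
    | zero => intro t; simp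
    | succ N ih =>
      intro t
      rw [pow_succ, Module.End.mul_apply, ih, h, pow_succ, Module.End.mul_apply]
  have h2 : ∀ (l : ℕ) (t : M), p (((T ^ N - μ • (1 : M →ₗ[ℂ] M)) ^ l) t) =
      ((T' ^ N - μ • (1 : M' →ₗ[ℂ] M')) ^ l) (p t) := by
    intro l
    induction l with
    | zero => intro t; simp
    | succ l ih =>
      intro t
      rw [pow_succ, Module.End.mul_apply, ih, pow_succ, Module.End.mul_apply]
      congr 1
      rw [LinearMap.sub_apply, map_sub, h1, LinearMap.smul_apply, map_smul,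
        LinearMap.sub_apply, LinearMap.smul_apply, Module.End.one_apply, Module.End.one_apply]
  rcases Nat.eq_zero_or_pos j with rfl | hj'
  · have h0 : t = 0 := by simpa using ht
    rw [h0, map_zero, map_zero, smul_zero]
  · have h14 : ((T' ^ N - μ • (1 : M' →ₗ[ℂ] M')) ^ j) (p t) = 0 := by
      rw [← h2, ht, map_zero]
    have h15 := semisimple_iter (S := T' ^ N - μ • (1 : M' →ₗ[ℂ] M')) (fun x hx => by
      rw [LinearMap.sub_apply, LinearMap.smul_apply, Module.End.one_apply,
        LinearMap.sub_apply, LinearMap.smul_apply, Module.End.one_apply] at hx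
      rw [LinearMap.sub_apply, LinearMap.smul_apply, Module.End.one_apply, hss x (by
        rw [← sub_eq_zero]
        exact hx), sub_self]) j (p t) h14 hj'
    rw [LinearMap.sub_apply, LinearMap.smul_apply, Module.End.one_apply, sub_eq_zero] at h15
    exact h15

theorem map_pow_ext (F : V →ₗ[ℂ] V) (n N : ℕ) :
    exteriorPower.map n (F ^ N) = (exteriorPower.map n F) ^ N := by
  induction N with
  | zero =>
    rw [pow_zero, pow_zero]
    exact exteriorPower.map_id
  | succ N ih =>
    rw [pow_succ, pow_succ, ← ih]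
    exact exteriorPower.map_comp F (F ^ N)

theorem map_pow_tensor {K : Type} [AddCommGroup K] [Module ℂ K] (F : V →ₗ[ℂ] V) (G : K →ₗ[ℂ] K)
    (n N : ℕ) : TensorProduct.map (exteriorPower.map n F) G ^ N =
      TensorProduct.map (exteriorPower.map n F ^ N) (G ^ N) := by
  induction N with
  | zero =>
    rw [pow_zero, pow_zero, pow_zero]
    exact (TensorProduct.map_one).symm
  | succ N ih =>
    rw [pow_succ, ih, pow_succ, pow_succ]
    exact (TensorProduct.map_mul _ _ _ _).symm

/-- The span of the products of `k` classes of divisors on `A` and a class in `Z`, `2 k = n`. -/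
def productClasses (F : V →ₗ[ℂ] V) (Q : ℂ) (n : ℕ) {K : Type} [AddCommGroup K] [Module ℂ K]
    (Z : Submodule ℂ K) : Submodule ℂ (ExteriorAlgebra ℂ V ⊗[ℂ] K) :=
  Submodule.span ℂ {t | ∃ (k : ℕ) (D : Fin k → ExteriorAlgebra ℂ V) (h : K),
    n = 2 * k ∧ (∀ l, IsDivisorClass F Q (D l)) ∧ h ∈ Z ∧ t = (List.ofFn D).prod ⊗ₜ h}

/-- `Z m` is the span of the classes of cycles in the cohomology of degree `m`: they are eigenvectors
of the Frobenius endomorphism of some finite extension, and all generalized eigenvectors of the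
Frobenius endomorphisms of the finite extensions with the same eigenvalues belong to `Z m`. (This is
the Tate conjecture and the semisimplicity over all finite extensions.) -/
def TateHolds (G : ∀ m, H m →ₗ[ℂ] H m) (Q : ℂ) (Z : ∀ m, Submodule ℂ (H m)) : Prop :=
  (∀ m j, m = 2 * j → ∀ x ∈ Z m, ∃ N : ℕ, 0 < N ∧ (G m ^ N) x = (Q ^ j) ^ N • x) ∧
  ∀ m j, m = 2 * j → ∀ x, IsGenTate (G m) Q j x → x ∈ Z m

/-- `t` is an eigenvector of some power of the Frobenius endomorphism on the cohomology of degree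
`2 i` of `A × U`, for the power of `Q ^ i`, and a combination of products of classes of divisors on
`A` and of classes in `Z`. -/
def IsProductClass (F : V →ₗ[ℂ] V) (G : ∀ m, H m →ₗ[ℂ] H m) (Q : ℂ) (Z : ∀ m, Submodule ℂ (H m))
    (i : ℕ) (t : Total V H (2 * i)) : Prop :=
  (∃ N : ℕ, 0 < N ∧ (total F G (2 * i) ^ N) t = (Q ^ i) ^ N • t) ∧
  ∀ n : Fin (2 * i + 1), incl V (H (2 * i - n)) n (comp (2 * i) n t) ∈
    productClasses F Q n (Z (2 * i - n))

/-- Let `A` be an abelian variety over the field with `Q = q ^ s` elements, isogenous to a product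
of powers of abelian varieties coming from the field with `q` elements, whose characteristic
polynomials of Frobenius are the `f i`, and let `U` be any smooth variety over the field with `Q`
elements, the eigenvalues of whose Frobenius endomorphism have rank at most `r` over the number
field `E` in each degree. Let `Z m` be the span of the classes of cycles on `U` (over the algebraic
closure) in the cohomology of degree `m`. If every generalized Tate class of `U` is in `Z` (the
Tate conjecture and the semisimplicity over all finite extensions), then the same holds for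
`A × U`: every generalized Tate class is an eigenvector, and a combination of products of classes of
divisors on `A` and of classes in `Z`. -/
def TateSemisimple {I : Type} (E : IntermediateField ℚ ℂ) (q r : ℕ) (f : I → ℤ[X]) : Prop :=
  ∀ (V : Type) [AddCommGroup V] [Module ℂ V] [FiniteDimensional ℂ V] (F : V →ₗ[ℂ] V),
    IsFrob f F → ∀ s : ℕ, 0 < s →
    ∀ (H : ℕ → Type) [∀ m, AddCommGroup (H m)] [∀ m, Module ℂ (H m)]
      [∀ m, FiniteDimensional ℂ (H m)] (G : ∀ m, H m →ₗ[ℂ] H m),
      (∀ m, SmallRankOver E r (G m)) →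
      ∀ Z : ∀ m, Submodule ℂ (H m), TateHolds G ((q : ℂ) ^ s) Z →
      ∀ (i : ℕ) (t : Total V H (2 * i)),
        IsGenTate (total (F ^ s) G (2 * i)) ((q : ℂ) ^ s) i t →
        IsProductClass (F ^ s) G ((q : ℂ) ^ s) Z i t

theorem comp_pow (F : V →ₗ[ℂ] V) (G : ∀ m, H m →ₗ[ℂ] H m) (m N : ℕ) (t : Total V H m)
    (n : Fin (m + 1)) : comp m n ((total F G m ^ N) t) =
      TensorProduct.map (exteriorPower.map (n : ℕ) F ^ N) (G (m - n) ^ N) (comp m n t) := by
  rw [← map_pow_tensor]
  induction N generalizing t with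
  | zero => simp
  | succ N ih =>
    rw [pow_succ, Module.End.mul_apply, ih, comp_total, pow_succ, Module.End.mul_apply]

theorem tateSemisimple_of {I : Type} (E : IntermediateField ℚ ℂ) (q r : ℕ) (hq : q ≠ 0)
    (f : I → ℤ[X]) (h : SemisimpleForRankOver E q r f) (h' : TateForRankOver E q r f) :
    TateSemisimple E q r f := by
  intro V _ _ _ F hF s hs H _ _ _ G hG Z hZU i t ht
  obtain ⟨hZ, hU⟩ := hZU
  have hQ : (q : ℂ) ^ s ≠ 0 := pow_ne_zero _ (by exact_mod_cast hq)
  obtain ⟨N, hN, j, hj⟩ := ht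
  -- the components are eigenvectors
  have hcomp : ∀ n : Fin (2 * i + 1),
      TensorProduct.map (exteriorPower.map (n : ℕ) (F ^ s) ^ N) (G (2 * i - n) ^ N)
        (comp (2 * i) n t) = (((q : ℂ) ^ s) ^ i) ^ N • comp (2 * i) n t := by
    intro n
    have hss := h V F hF (s * N) (Nat.mul_pos hs hN) (H (2 * i - n)) (G (2 * i - n) ^ N)
      (smallRankOver_pow _ (hG _) N hN) n (i : ℤ) (by
        intro k hk
        have hki : k ≤ i := by have := n.2; omega
        have hm : 2 * i - (n : ℕ) = 2 * (i - k) := by omega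
        rw [← Nat.cast_sub hki, zpow_natCast]
        intro x hx
        have hx' : (G (2 * i - n) ^ N) ((G (2 * i - n) ^ N) x -
            (((q : ℂ) ^ s) ^ (i - k)) ^ N • x) = (((q : ℂ) ^ s) ^ (i - k)) ^ N •
              ((G (2 * i - n) ^ N) x - (((q : ℂ) ^ s) ^ (i - k)) ^ N • x) := by
          have h9 : ((q : ℂ) ^ (s * N)) ^ (i - k) = (((q : ℂ) ^ s) ^ (i - k)) ^ N := by
            simp only [← pow_mul]
            congr 1
            ring
          rw [← h9]
          exact hx
        have hxZ : x ∈ Z (2 * i - n) := by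
          refine hU _ (i - k) hm x ⟨N, hN, 2, ?_⟩
          rw [pow_two, Module.End.mul_apply, LinearMap.sub_apply, LinearMap.sub_apply,
            LinearMap.smul_apply, LinearMap.smul_apply, Module.End.one_apply,
            Module.End.one_apply]
          rw [hx', sub_self]
        obtain ⟨N', hN', h10⟩ := hZ _ (i - k) hm x hxZ
        have h11 : ((G (2 * i - n) ^ N) ^ N') x =
            ((((q : ℂ) ^ s) ^ (i - k)) ^ N) ^ N' • x := by
          have h12 := pow_smul_iter (G (2 * i - n) ^ N') x h10 N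
          rw [← pow_mul, mul_comm N N', pow_mul, h12]
          congr 1
          simp only [← pow_mul]
          congr 1
          ring
        have h13 := eigen_of_pow (G (2 * i - n) ^ N) (pow_ne_zero _ (pow_ne_zero _ hQ)) x hx'
          hN' h11
        rw [h13]
        congr 1
        simp only [← pow_mul]
        congr 1
        ring)
    have hT : TensorProduct.map (exteriorPower.map (n : ℕ) (F ^ (s * N)))
        (G (2 * i - n) ^ N) = TensorProduct.map (exteriorPower.map (n : ℕ) (F ^ s))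
          (G (2 * i - n)) ^ N := by
      rw [pow_mul, map_pow_ext (F ^ s), map_pow_tensor]
    rw [zpow_natCast, show ((q : ℂ) ^ (s * N)) ^ i = (((q : ℂ) ^ s) ^ i) ^ N by
      simp only [← pow_mul]
      congr 1
      ring, hT] at hss
    have h20 := eigen_component (M := Total V H (2 * i))
      (M' := (⋀[ℂ]^(n : ℕ) V) ⊗[ℂ] H (2 * i - n)) (total (F ^ s) G (2 * i))
      (TensorProduct.map (exteriorPower.map (n : ℕ) (F ^ s)) (G (2 * i - n)))
      (comp (2 * i) n) (fun t => comp_total _ _ _ t n) _ N j t hj hss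
    rw [map_pow_tensor] at h20
    exact h20
  refine ⟨⟨N, hN, ?_⟩, fun n => ?_⟩
  · refine ext_comp fun n => ?_
    rw [comp_pow, hcomp n, map_smul]
  · have h16 := h' V F hF s hs (H (2 * i - n)) (G (2 * i - n)) (hG _) n (i : ℤ) N hN
      (comp (2 * i) n t) (by
        rw [zpow_natCast]
        exact hcomp n)
    refine Submodule.span_mono ?_ h16
    rintro y ⟨k, D, x, hk, hD, ⟨M, hM, hx⟩, rfl⟩
    refine ⟨k, D, x, hk, hD, ?_, rfl⟩
    have hki : k ≤ i := by have := n.2; omega
    refine hU _ (i - k) (by omega) x ⟨M, hM, 1, ?_⟩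
    rw [← Nat.cast_sub hki, zpow_natCast] at hx
    rw [pow_one, LinearMap.sub_apply, LinearMap.smul_apply, Module.End.one_apply, hx, sub_self]

/-- **The count.** -/
theorem count_tate {I : Type} [Fintype I] (g : I → ℕ) (r : ℕ) (hr : ∀ i, r < g i)
    (E : IntermediateField ℚ ℂ) [FiniteDimensional ℚ E] :
    ∃ C : ℝ, ∀ q : ℕ, IsPrimePow q → ∀ S : I → Set ℤ[X],
      (∀ i, ordinaryWeilPolys q (g i) ⊆ S i ∧ S i ⊆ weilPolys q (g i)) →
      (∀ i, (S i).Finite ∧ (S i).Nonempty) ∧
      ({f : I → ℤ[X] | (∀ i, f i ∈ S i) ∧ ¬ TateSemisimple E q r f}.ncard : ℝ) ≤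
        C * (Real.log q * (q : ℝ) ^ (-(1 / 6) : ℝ)) * ∏ i, ((S i).ncard : ℝ) :=
  count_of_goodU (splitPrimes E) (dense_splitPrimes E) g
    (fun i => (Nat.zero_le r).trans_lt (hr i)) (fun q f => TateSemisimple E q r f)
    fun _ hq x hx => tateSemisimple_of E _ r hq.pos.ne' _
      (semisimpleForRankOver_of_good g E hq.pos.ne' r hr x hx)
      (tateForRankOver_of_good g E hq.pos.ne' r hr x hx)

end Pool.Agent.TH44.SS
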